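import Mathlib

/-!
# The divisible hull of a torsion-free abelian subgroup as the target of partial homomorphisms
-/

set_option autoImplicit false

namespace Pool.Agent.R573.TA

universe u

/-- Let `B` be an abelian subgroup of `K`. The elements with a positive power in `B` have values in an
abelian group (the localization of `B` at the nonzero integers). -/
theorem exists_div {K : Type u} [Group K] (B : Subgroup K)
    (hB : ∀ x ∈ B, ∀ y ∈ B, x * y = y * x) :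
    ∃ (E : Type u) (_ : AddCommGroup E) (L : K → E),
      (∀ x y : K, x * y = y * x → (∃ n : ℕ, 0 < n ∧ x ^ n ∈ B) → (∃ n : ℕ, 0 < n ∧ y ^ n ∈ B) →
        L (x * y) = L x + L y) ∧
      (∀ x y : K, (∃ n : ℕ, 0 < n ∧ x ^ n ∈ B) → (∃ n : ℕ, 0 < n ∧ x ^ n = y ^ n) → L x = L y) ∧
      (∀ x : K, (∃ n : ℕ, 0 < n ∧ x ^ n ∈ B) → L x = 0 → ∃ n : ℕ, 0 < n ∧ x ^ n = 1) := by
  classical
  let _i : CommGroup ↥B := { B.toGroup with
    mul_comm := fun a b => Subtype.ext (hB a a.2 b b.2) }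
  let S : Submonoid ℤ := nonZeroDivisors ℤ
  have hS : ∀ n : ℕ, 0 < n → (n : ℤ) ∈ S := by
    intro n hn
    rw [mem_nonZeroDivisors_iff_ne_zero]
    exact_mod_cast hn.ne'
  let E := LocalizedModule S (Additive ↥B)
  let val : ∀ (x : K) (n : ℕ), 0 < n → x ^ n ∈ B → E := fun x n hn h =>
    LocalizedModule.mk (Additive.ofMul (⟨x ^ n, h⟩ : ↥B)) ⟨(n : ℤ), hS n hn⟩
  have hval : ∀ (x y : K) (n m : ℕ) (hn : 0 < n) (hm : 0 < m) (hx : x ^ n ∈ B) (hy : y ^ m ∈ B),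
      (x ^ (n * m) = y ^ (n * m)) → val x n hn hx = val y m hm hy := by
    intro x y n m hn hm hx hy h
    show LocalizedModule.mk _ _ = LocalizedModule.mk _ _
    rw [LocalizedModule.mk_eq]
    refine ⟨1, ?_⟩
    rw [one_smul, one_smul]
    show ((m : ℤ)) • Additive.ofMul (⟨x ^ n, hx⟩ : ↥B) = ((n : ℤ)) • Additive.ofMul (⟨y ^ m, hy⟩ : ↥B)
    rw [natCast_zsmul, natCast_zsmul, ← ofMul_pow, ← ofMul_pow]
    congr 1
    apply Subtype.ext
    show (x ^ n) ^ m = (y ^ m) ^ n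
    rw [← pow_mul, ← pow_mul, h, mul_comm]
  let L : K → E := fun x => if h : ∃ n : ℕ, 0 < n ∧ x ^ n ∈ B then val x h.choose h.choose_spec.1
    h.choose_spec.2 else 0
  have hL : ∀ (x : K) (n : ℕ) (hn : 0 < n) (hx : x ^ n ∈ B), L x = val x n hn hx := by
    intro x n hn hx
    have h : ∃ n : ℕ, 0 < n ∧ x ^ n ∈ B := ⟨n, hn, hx⟩
    have h1 : L x = val x h.choose h.choose_spec.1 h.choose_spec.2 := dif_pos h
    rw [h1]
    exact hval _ _ _ _ h.choose_spec.1 hn h.choose_spec.2 hx rfl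
  refine ⟨E, inferInstance, L, ?_, ?_, ?_⟩
  · rintro x y hxy ⟨n, hn, hx⟩ ⟨m, hm, hy⟩
    have hc : Commute x y := hxy
    have hx' : x ^ (n * m) ∈ B := by rw [pow_mul]; exact B.pow_mem hx m
    have hy' : y ^ (n * m) ∈ B := by rw [mul_comm, pow_mul]; exact B.pow_mem hy n
    have hnm : 0 < n * m := Nat.mul_pos hn hm
    have hxy' : (x * y) ^ (n * m) ∈ B := by rw [hc.mul_pow]; exact B.mul_mem hx' hy'
    rw [hL x _ hnm hx', hL y _ hnm hy', hL (x * y) _ hnm hxy']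
    show LocalizedModule.mk _ _ = LocalizedModule.mk _ _ + LocalizedModule.mk _ _
    rw [LocalizedModule.mk_add_mk, LocalizedModule.mk_eq]
    refine ⟨1, ?_⟩
    rw [one_smul, one_smul, ← smul_add, mul_smul]
    congr 2
    show Additive.ofMul (⟨(x * y) ^ (n * m), hxy'⟩ : ↥B) =
      Additive.ofMul (⟨x ^ (n * m), hx'⟩ * ⟨y ^ (n * m), hy'⟩ : ↥B)
    congr 1
    apply Subtype.ext
    show (x * y) ^ (n * m) = x ^ (n * m) * y ^ (n * m)
    exact hc.mul_pow _
  · rintro x y ⟨n, hn, hx⟩ ⟨m, hm, h⟩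
    have hx' : x ^ (n * m) ∈ B := by rw [pow_mul]; exact B.pow_mem hx m
    have e : x ^ (n * m) = y ^ (n * m) := by rw [mul_comm, pow_mul, h, ← pow_mul]
    have hy' : y ^ (n * m) ∈ B := e ▸ hx'
    have hnm : 0 < n * m := Nat.mul_pos hn hm
    rw [hL x _ hnm hx', hL y _ hnm hy']
    exact hval x y (n * m) (n * m) hnm hnm hx' hy' (by rw [pow_mul, e, ← pow_mul])
  · rintro x ⟨n, hn, hx⟩ h
    rw [hL x n hn hx] at h
    have h1 : LocalizedModule.mk (Additive.ofMul (⟨x ^ n, hx⟩ : ↥B)) (⟨(n : ℤ), hS n hn⟩ : S) =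
        LocalizedModule.mk 0 1 := by
      rw [LocalizedModule.zero_mk]
      exact h
    rw [LocalizedModule.mk_eq] at h1
    obtain ⟨u, hu⟩ := h1
    rw [one_smul, smul_zero, smul_zero] at hu
    have hu0 : (u : ℤ) ≠ 0 := mem_nonZeroDivisors_iff_ne_zero.1 u.2
    have hu1 : (u : ℤ) • Additive.ofMul (⟨x ^ n, hx⟩ : ↥B) = 0 := hu
    rw [← ofMul_zpow, ofMul_eq_zero] at hu1
    have hu2 : (x ^ n) ^ (u : ℤ) = 1 := congrArg Subtype.val hu1
    have hu3 : (x ^ n) ^ (u : ℤ).natAbs = 1 := by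
      rcases Int.natAbs_eq (u : ℤ) with h2 | h2
      · rw [h2, zpow_natCast] at hu2
        exact hu2
      · rw [h2, zpow_neg, inv_eq_one, zpow_natCast] at hu2
        exact hu2
    exact ⟨n * (u : ℤ).natAbs, Nat.mul_pos hn (Int.natAbs_pos.2 hu0), by rw [pow_mul]; exact hu3⟩

end Pool.Agent.R573.TA
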