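import Mathlib

/-!
# Elements with centralizers of finite index
-/

set_option autoImplicit false

namespace Pool.Agent.R573.TA

open Subgroup
open scoped IsMulCommutative commutatorElement

universe u

variable {G : Type u} [Group G]

/-- powers in subgroups of finite index -/
theorem exists_pow_mem' {H S : Subgroup G} (h : H.relIndex S ≠ 0) {a : G} (ha : a ∈ S) :
    ∃ n : ℕ, 0 < n ∧ a ^ n ∈ H := by
  obtain ⟨n, h1, -, h2⟩ := exists_pow_mem_of_relIndex_ne_zero h ha
  exact ⟨n, h1, h2.1⟩

theorem relIndex_mono_ne {H H' S : Subgroup G} (h : H ≤ H') (h0 : H.relIndex S ≠ 0) :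
    H'.relIndex S ≠ 0 := fun h1 => h0 (relIndex_eq_zero_of_le_left h h1)

theorem relIndex_anti_ne {H S S' : Subgroup G} (h : S' ≤ S) (h0 : H.relIndex S ≠ 0) :
    H.relIndex S' ≠ 0 := fun h1 => h0 (relIndex_eq_zero_of_le_right h h1)

theorem centralizer_finite {S : Subgroup G} {c : Set G} (hc : c.Finite)
    (h : ∀ x ∈ c, (centralizer ({x} : Set G)).relIndex S ≠ 0) :
    (centralizer c).relIndex S ≠ 0 := by
  induction c, hc using Set.Finite.induction_on with
  | empty =>
    have e : centralizer (∅ : Set G) = ⊤ := by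
      rw [eq_top_iff]
      intro x _
      rw [mem_centralizer_iff]
      intro y hy
      exact hy.elim
    rw [e, relIndex_top_left]
    exact one_ne_zero
  | @insert a s _ _ ih =>
    have h1 := h a (Set.mem_insert _ _)
    have h2 := ih fun x hx => h x (Set.mem_insert_of_mem _ hx)
    refine relIndex_mono_ne ?_ (relIndex_inf_ne_zero h1 h2)
    intro x hx
    rw [mem_centralizer_iff]
    rintro y (rfl | hy)
    · exact mem_centralizer_iff.1 hx.1 y rfl
    · exact mem_centralizer_iff.1 hx.2 y hy

/-- the centre of the subgroup generated by finitely many elements with large centralizers -/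
theorem center_closure {S P : Subgroup G} {c : Set G} (hc : c.Finite)
    (h : ∀ x ∈ c, (centralizer ({x} : Set G)).relIndex S ≠ 0) (hP : P = closure c) (hPS : P ≤ S) :
    (center ↥P).FiniteIndex := by
  have h1 : (centralizer c).relIndex P ≠ 0 := relIndex_anti_ne hPS (centralizer_finite hc h)
  refine ⟨fun h2 => h1 ?_⟩
  rw [relIndex]
  have h3 : (centralizer c).subgroupOf P ≤ center ↥P := by
    intro x hx
    rw [mem_subgroupOf] at hx
    rw [mem_center_iff]
    intro y
    apply Subtype.ext
    have h4 : (y : G) ∈ centralizer ({(x : G)} : Set G) := by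
      have h5 : P ≤ centralizer ({(x : G)} : Set G) := by
        refine hP.le.trans ?_
        rw [closure_le]
        intro z hz
        rw [SetLike.mem_coe, mem_centralizer_iff]
        rintro _ rfl
        exact (mem_centralizer_iff.1 hx z hz).symm
      exact h5 y.2
    exact (mem_centralizer_iff.1 h4 x rfl).symm
  exact Nat.eq_zero_of_zero_dvd (h2 ▸ index_dvd_of_le h3)

/-- Elements with centralizers of finite index commute, if there is no torsion. -/
theorem comm_of_fc {S : Subgroup G} {x y : G} (hx : x ∈ S) (hy : y ∈ S)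
    (hcx : (centralizer ({x} : Set G)).relIndex S ≠ 0)
    (hcy : (centralizer ({y} : Set G)).relIndex S ≠ 0)
    (htf : ∀ z ∈ S, (centralizer ({z} : Set G)).relIndex S ≠ 0 → ∀ n : ℕ, 0 < n → z ^ n = 1 → z = 1)
    : x * y = y * x := by
  set P : Subgroup G := closure {x, y} with hP
  have hPS : P ≤ S := by
    rw [hP, closure_le]
    rintro z (rfl | rfl)
    · exact hx
    · exact hy
  have hxP : x ∈ P := subset_closure (Set.mem_insert _ _)
  have hyP : y ∈ P := subset_closure (Set.mem_insert_of_mem _ rfl)
  have hfi : (center ↥P).FiniteIndex := center_closure (c := {x, y}) (Set.toFinite _) (by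
    rintro z (rfl | rfl)
    · exact hcx
    · exact hcy) hP hPS
  let X : ↥P := ⟨x, hxP⟩
  let Y : ↥P := ⟨y, hyP⟩
  have h1 : MonoidHom.transferCenterPow ↥P ⁅X, Y⁆ = 1 := by
    rw [map_commutatorElement, commutatorElement_eq_one_iff_mul_comm, mul_comm]
  have h2 : ((MonoidHom.transferCenterPow ↥P ⁅X, Y⁆ : center ↥P) : ↥P) = 1 := by rw [h1]; rfl
  rw [MonoidHom.transferCenterPow_apply] at h2
  have h3 : ⁅x, y⁆ ^ (center ↥P).index = 1 := by
    have := congrArg Subtype.val h2
    exact this
  have h4 : ⁅x, y⁆ = 1 := by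
    apply htf _ _ _ _ (Nat.pos_of_ne_zero hfi.index_ne_zero) h3
    · exact hPS (⁅X, Y⁆ : ↥P).2
    · refine relIndex_mono_ne ?_ (relIndex_inf_ne_zero hcx hcy)
      intro z hz
      have e1 : x * z = z * x := mem_centralizer_iff.1 hz.1 x rfl
      have e2 : y * z = z * y := mem_centralizer_iff.1 hz.2 y rfl
      rw [mem_centralizer_iff]
      rintro _ rfl
      have f1 : Commute z x := e1.symm
      have f2 : Commute z y := e2.symm
      have f3 : Commute z ⁅x, y⁆ := by
        rw [commutatorElement_def]
        exact ((f1.mul_right f2).mul_right f1.inv_right).mul_right f2.inv_right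
      exact f3.eq.symm
  exact commutatorElement_eq_one_iff_mul_comm.1 h4

/-- Dietzmann's lemma for one element -/
theorem dietzmann {S : Type u} [Group S] (x : S) (hx : (centralizer ({x} : Set S)).index ≠ 0)
    (n : ℕ) (hn : 0 < n) (h : x ^ n = 1) : Finite (normalClosure ({x} : Set S)) := by
  classical
  have hfiC : (centralizer ({x} : Set S)).FiniteIndex := ⟨hx⟩
  set c : Set S := Group.conjugatesOfSet {x} with hc
  have hcmem : ∀ z, z ∈ c ↔ ∃ s : S, s * x * s⁻¹ = z := by
    intro z
    rw [hc, Group.mem_conjugatesOfSet_iff]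
    simp [isConj_iff]
  have hcfin : c.Finite := by
    have : c ⊆ Set.range (fun q : S ⧸ centralizer ({x} : Set S) => q.out * x * q.out⁻¹) := by
      intro z hz
      obtain ⟨s, rfl⟩ := (hcmem z).1 hz
      refine ⟨QuotientGroup.mk s, ?_⟩
      obtain ⟨t, ht⟩ := QuotientGroup.mk_out_eq_mul (centralizer ({x} : Set S)) s
      have h1 : x * (t : S) = t * x := mem_centralizer_iff.1 t.2 x rfl
      show (QuotientGroup.mk s : S ⧸ centralizer ({x} : Set S)).out * x *
        (QuotientGroup.mk s : S ⧸ centralizer ({x} : Set S)).out⁻¹ = _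
      rw [ht, mul_inv_rev, mul_assoc s, ← h1]
      group
    exact (Set.finite_range _).subset this
  set P : Subgroup S := normalClosure ({x} : Set S) with hP
  have hPc : P = closure c := rfl
  have hcen : ∀ z ∈ c, (centralizer ({z} : Set S)).relIndex ⊤ ≠ 0 := by
    intro z hz
    obtain ⟨s, rfl⟩ := (hcmem z).1 hz
    rw [relIndex_top_right]
    have e : centralizer ({s * x * s⁻¹} : Set S) =
        (centralizer ({x} : Set S)).comap (MulAut.conj s⁻¹).toMonoidHom := by
      ext y
      rw [mem_comap, mem_centralizer_iff, mem_centralizer_iff]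
      simp only [Set.mem_singleton_iff, forall_eq, MulEquiv.coe_toMonoidHom, MulAut.conj_apply,
        inv_inv]
      constructor
      · intro h
        calc x * (s⁻¹ * y * s) = s⁻¹ * (s * x * s⁻¹ * y) * s := by group
          _ = s⁻¹ * (y * (s * x * s⁻¹)) * s := by rw [h]
          _ = _ := by group
      · intro h
        calc s * x * s⁻¹ * y = s * (x * (s⁻¹ * y * s)) * s⁻¹ := by group
          _ = s * (s⁻¹ * y * s * x) * s⁻¹ := by rw [h]
          _ = _ := by group
    rw [e, index_comap_of_surjective _ (MulAut.conj s⁻¹).surjective]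
    exact hx
  have hfi : (center ↥P).FiniteIndex := center_closure hcfin hcen hPc le_top
  have hfg : Group.FG ↥P := by
    rw [Group.fg_iff_subgroup_fg]
    exact ⟨hcfin.toFinset, by rw [hcfin.coe_toFinset]; exact hPc.symm⟩
  have hfgc : Group.FG ↥(center ↥P) := fg_of_index_ne_zero _
  -- all elements are torsion
  have htor : ∀ p : ↥P, IsOfFinOrder (MonoidHom.transferCenterPow ↥P p) := by
    have h1 : (⊤ : Subgroup ↥P) ≤
        (CommGroup.torsion ↥(center ↥P)).comap (MonoidHom.transferCenterPow ↥P) := by
      have h2 : (⊤ : Subgroup ↥P) = closure ((↑) ⁻¹' c : Set ↥P) := by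
        have := Subgroup.closure_closure_coe_preimage (k := c)
        exact this.symm
      rw [h2, closure_le]
      intro p hp
      obtain ⟨s, hs⟩ := (hcmem p).1 hp
      show MonoidHom.transferCenterPow ↥P p ∈ CommGroup.torsion _
      show IsOfFinOrder _
      rw [isOfFinOrder_iff_pow_eq_one]
      refine ⟨n, hn, ?_⟩
      rw [← map_pow]
      have : p ^ n = 1 := by
        apply Subtype.ext
        rw [SubmonoidClass.coe_pow, ← hs, OneMemClass.coe_one]
        rw [show s * x * s⁻¹ = MulAut.conj s x from rfl, ← map_pow, h, map_one]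
      rw [this, map_one]
    intro p
    exact h1 (mem_top p)
  have htor2 : IsMulTorsion ↥(center ↥P) := by
    intro z
    have h1 := htor z
    rw [isOfFinOrder_iff_pow_eq_one] at h1 ⊢
    obtain ⟨m, hm, h2⟩ := h1
    refine ⟨(center ↥P).index * m, Nat.mul_pos (Nat.pos_of_ne_zero hfi.index_ne_zero) hm, ?_⟩
    apply Subtype.ext
    have h3 := congrArg Subtype.val h2
    rw [SubmonoidClass.coe_pow, MonoidHom.transferCenterPow_apply] at h3
    rw [SubmonoidClass.coe_pow, pow_mul]
    exact h3
  have hf1 : Finite ↥(center ↥P) := CommGroup.finite_of_fg_isMulTorsion _ htor2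
  apply Nat.finite_of_card_ne_zero
  rw [← (center ↥P).card_mul_index]
  exact Nat.mul_ne_zero Nat.card_pos.ne' hfi.index_ne_zero

/-- there is no torsion, if there are no finite normal subgroups -/
theorem torsion_free {S : Type u} [Group S] (hS : ∀ F : Subgroup S, F.Normal → Finite F → F = ⊥)
    (x : S) (hx : (centralizer ({x} : Set S)).index ≠ 0) (n : ℕ) (hn : 0 < n) (h : x ^ n = 1) :
    x = 1 := by
  have h1 := hS (normalClosure {x}) normalClosure_normal (dietzmann x hx n hn h)
  have h2 : x ∈ normalClosure ({x} : Set S) := subset_normalClosure rfl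
  rw [h1, mem_bot] at h2
  exact h2

end Pool.Agent.R573.TA
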