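import Pool.Agent.H40R2.Zd.Serre

/-!
# Homomorphisms on groups acting on trees with given restrictions to the stabilizers
-/

set_option autoImplicit false

namespace Pool.Agent.R573.TA

open Pool.Agent.H40R2.Zd

universe u v w

/-- transversals of the orbits -/
theorem exists_section (K : Type u) [Group K] (X : Type v) [MulAction K X] :
    ∃ s : X → K, ∀ (k : K) (x : X), (s (k • x))⁻¹ • (k • x) = (s x)⁻¹ • x := by
  classical
  have h : ∀ x : X, ∃ g : K,
      g • (Quotient.out (Quotient.mk (MulAction.orbitRel K X) x)) = x := by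
    intro x
    have h1 : (MulAction.orbitRel K X).r x (Quotient.out (Quotient.mk (MulAction.orbitRel K X) x)) :=
      Quotient.exact (Quotient.out_eq _).symm
    exact h1
  choose s hs using h
  refine ⟨s, fun k x => ?_⟩
  have e : Quotient.mk (MulAction.orbitRel K X) (k • x) = Quotient.mk (MulAction.orbitRel K X) x := by
    apply Quotient.sound
    exact ⟨k, rfl⟩
  have h1 := hs (k • x)
  have h2 := hs x
  rw [inv_smul_eq_iff.2 h1.symm, inv_smul_eq_iff.2 h2.symm, e]

/-- potentials on trees -/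
theorem exists_potential {V : Type v} (T : SimpleGraph V) (hT : T.IsTree) {E : Type w}
    [AddCommGroup E] (f : V → V → E) :
    ∃ a : V → E, ∀ u v, T.Adj u v → a v = a u + (f u v - f v u) := by
  classical
  let _i : MulAction PUnit.{1} V :=
    { smul := fun _ v => v, one_smul := fun _ => rfl, mul_smul := fun _ _ _ => rfl }
  have hsm : ∀ (γ : PUnit.{1}) (v : V), γ • v = v := fun _ _ => rfl
  let φ : PD PUnit.{1} V → Multiplicative E :=
    Quotient.lift (fun p : V × V => Multiplicative.ofAdd (f p.1 p.2)) (by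
      rintro ⟨a, b⟩ ⟨c, d⟩ ⟨γ, h1, h2⟩
      rw [hsm] at h1 h2
      dsimp only at h1 h2
      subst h1; subst h2; rfl)
  have hφ : ∀ u v : V, φ (dmk PUnit.{1} u v) = Multiplicative.ofAdd (f u v) := fun _ _ => rfl
  let Φ : FreeGroup (PD PUnit.{1} V) →* Multiplicative E := FreeGroup.lift φ
  have hne := hT.connected.nonempty
  obtain ⟨v0⟩ : Nonempty V := hne
  have hw : ∀ u : V, Nonempty (T.Walk v0 u) := fun u => hT.connected.preconnected v0 u
  let w0 : ∀ u : V, T.Walk v0 u := fun u => Classical.choice (hw u)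
  refine ⟨fun v => Multiplicative.toAdd (Φ (wt PUnit.{1} T (w0 v))), fun u v h => ?_⟩
  have h1 : wt PUnit.{1} T (w0 v) = wt PUnit.{1} T ((w0 u).append
      (SimpleGraph.Walk.cons h SimpleGraph.Walk.nil)) := wt_eq hT _ _
  show Multiplicative.toAdd (Φ (wt PUnit.{1} T (w0 v))) =
    Multiplicative.toAdd (Φ (wt PUnit.{1} T (w0 u))) + (f u v - f v u)
  have h2 : ∀ p : PD PUnit.{1} V, Φ (FreeGroup.of p) = φ p := fun p => FreeGroup.lift_apply_of
  rw [h1, wt_append, wt_cons, wt_nil, mul_one, MonoidHom.map_mul Φ, MonoidHom.map_mul Φ,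
    MonoidHom.map_inv Φ, h2, h2, hφ, hφ]
  simp only [toAdd_mul, toAdd_inv, toAdd_ofAdd]
  abel

section hom

variable {K : Type u} [Group K] {V : Type v} [MulAction K V]

/-- the action on unordered pairs -/
@[reducible] def symAct (K : Type u) [Group K] (V : Type v) [MulAction K V] : MulAction K (Sym2 V) where
  smul k := Sym2.map (fun v => k • v)
  one_smul := by
    intro z
    show Sym2.map _ z = z
    induction z using Sym2.ind with
    | _ a b => simp
  mul_smul := by
    intro k l z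
    show Sym2.map _ z = Sym2.map _ (Sym2.map _ z)
    induction z using Sym2.ind with
    | _ a b => simp [mul_smul]

/-- the homomorphism with prescribed values on the elements with fixed points -/
theorem exists_hom (T : SimpleGraph V) (hT : T.IsTree)
    (hadj : ∀ (γ : K) (u v : V), T.Adj u v → T.Adj (γ • u) (γ • v))
    (hinv : ∀ γ : K, ∀ u v : V, T.Adj u v → ¬ (γ • u = v ∧ γ • v = u))
    {E : Type w} [AddCommGroup E] (L : K → E)
    (hmul : ∀ (v : V) (x y : K), x • v = v → y • v = v → L (x * y) = L x + L y)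
    (hconj : ∀ (k x : K) (v : V), x • v = v → L (k * x * k⁻¹) = L x) :
    ∃ h : K → E, (∀ x y, h (x * y) = h x + h y) ∧ ∀ (x : K) (v : V), x • v = v → h x = L x := by
  classical
  obtain ⟨s, hs⟩ := exists_section K V
  let _i := symAct K V
  have hsym : ∀ (k : K) (a b : V), k • s(a, b) = s(k • a, k • b) := fun _ _ _ => rfl
  obtain ⟨t, ht⟩ := exists_section K (Sym2 V)
  have L1 : L 1 = 0 := by
    obtain ⟨v0⟩ : Nonempty V := hT.connected.nonempty
    have := hmul v0 1 1 (one_smul _ _) (one_smul _ _)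
    rw [mul_one] at this
    exact (left_eq_add.1 this)
  let c : K → V → E := fun k v => L (k * s (k⁻¹ • v) * (s v)⁻¹)
  have hfix : ∀ (k : K) (v : V), (k * s (k⁻¹ • v) * (s v)⁻¹) • v = v := by
    intro k v
    rw [mul_smul, ← hs k⁻¹ v, mul_smul, smul_inv_smul, smul_inv_smul]
  have hco : ∀ (k l : K) (v : V), c (k * l) v = c k v + c l (k⁻¹ • v) := by
    intro k l v
    have h1 := hfix l (k⁻¹ • v)
    set y := l * s (l⁻¹ • k⁻¹ • v) * (s (k⁻¹ • v))⁻¹ with hy
    have h2 : (k * y * k⁻¹) • v = v := by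
      rw [mul_smul, mul_smul, h1, smul_inv_smul]
    have h3 : c (k * l) v = L ((k * y * k⁻¹) * (k * s (k⁻¹ • v) * (s v)⁻¹)) := by
      show L _ = L _
      congr 1
      rw [hy, mul_inv_rev, mul_smul]
      group
    rw [h3, hmul v _ _ h2 (hfix k v), hconj k y (k⁻¹ • v) h1, add_comm]
  have hx : ∀ (x : K) (v : V), x • v = v → c x v = L x := by
    intro x v h
    have h1 : x⁻¹ • v = v := by rw [inv_smul_eq_iff, h]
    show L _ = L _
    rw [h1]
    congr 1
    group
  have hcinv : ∀ (k : K) (v : V), c k⁻¹ v = - c k (k • v) := by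
    intro k v
    have h1 := hco k k⁻¹ (k • v)
    rw [mul_inv_cancel, inv_smul_smul, hx 1 _ (one_smul _ _), L1] at h1
    exact (neg_eq_of_add_eq_zero_right h1.symm).symm
  let f : V → V → E := fun v v' => c (t s(v, v')) v
  have hf : ∀ (k : K) (v v' : V), T.Adj v v' →
      c k v = f v v' + L ((t s(v, v'))⁻¹ * k * t s(k⁻¹ • v, k⁻¹ • v')) - f (k⁻¹ • v) (k⁻¹ • v') := by
    intro k v v' h
    set a := t s(v, v') with ha
    set a' := t s(k⁻¹ • v, k⁻¹ • v') with ha'
    set x := a⁻¹ * k * a' with hxd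
    have hk : k = a * x * a'⁻¹ := by rw [hxd]; group
    have h1 : a'⁻¹ • s(k⁻¹ • v, k⁻¹ • v') = a⁻¹ • s(v, v') := ht k⁻¹ s(v, v')
    have h2 : x • (a⁻¹ • s(v, v')) = a⁻¹ • s(v, v') := by
      rw [← h1, hxd, mul_smul, mul_smul, smul_inv_smul, ← hsym k⁻¹, smul_inv_smul]
      exact h1.symm
    have h3 : x • a⁻¹ • v = a⁻¹ • v := by
      rw [hsym, hsym, Sym2.eq_iff] at h2
      rcases h2 with h2 | h2
      · exact h2.1
      · exact absurd ⟨h2.1, h2.2⟩ (hinv x _ _ (hadj a⁻¹ _ _ h))
    have h4 : (a * x)⁻¹ • v = a⁻¹ • v := by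
      rw [mul_inv_rev, mul_smul, inv_smul_eq_iff, h3]
    have h5 : a' • a⁻¹ • v = k⁻¹ • v := by
      rw [hk, mul_inv_rev, mul_inv_rev, inv_inv, mul_smul, mul_smul]
      congr 1
      rw [eq_inv_smul_iff, h3]
    have h6 : c k v = c a v + c x (a⁻¹ • v) + c a'⁻¹ ((a * x)⁻¹ • v) := by
      conv_lhs => rw [hk]
      rw [hco, hco]
    rw [h6, hx x _ h3, h4, hcinv a', h5]
    show _ = c a v + _ - c a' (k⁻¹ • v)
    abel
  obtain ⟨a, ha⟩ := exists_potential T hT f
  let F : K → V → E := fun k v => c k v - a (k⁻¹ • v) + a v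
  have hF1 : ∀ (k : K) (v v' : V), T.Adj v v' → F k v = F k v' := by
    intro k v v' h
    have h1 := hf k v v' h
    have h2 := hf k v' v h.symm
    rw [Sym2.eq_swap (a := v'), Sym2.eq_swap (a := k⁻¹ • v')] at h2
    have h3 := ha v v' h
    have h4 := ha (k⁻¹ • v) (k⁻¹ • v') (hadj k⁻¹ _ _ h)
    show c k v - a (k⁻¹ • v) + a v = c k v' - a (k⁻¹ • v') + a v'
    rw [h1, h2, h3, h4]
    abel
  have hF : ∀ (k : K) (v v' : V), F k v = F k v' := by
    intro k v v'
    obtain ⟨p⟩ := hT.connected.preconnected v v'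
    induction p with
    | nil => rfl
    | cons h p ih => exact (hF1 k _ _ h).trans ih
  obtain ⟨v0⟩ : Nonempty V := hT.connected.nonempty
  refine ⟨fun k => F k v0, ?_, ?_⟩
  · intro x y
    show F (x * y) v0 = F x v0 + F y v0
    rw [hF y v0 (x⁻¹ • v0)]
    show c (x * y) v0 - a ((x * y)⁻¹ • v0) + a v0 =
      (c x v0 - a (x⁻¹ • v0) + a v0) + (c y (x⁻¹ • v0) - a (y⁻¹ • x⁻¹ • v0) + a (x⁻¹ • v0))
    rw [hco, mul_inv_rev, mul_smul]
    abel
  · intro x v h
    show F x v0 = L x
    rw [hF x v0 v]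
    show c x v - a (x⁻¹ • v) + a v = L x
    have h1 : x⁻¹ • v = v := by rw [inv_smul_eq_iff, h]
    rw [hx x v h, h1]
    abel

end hom

end Pool.Agent.R573.TA
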