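import Pool.Agent.Y110.FJ.Stm
import Pool.Agent.H40R2.Zd.Serre

/-!
# Groups acting on trees with a normal subgroup acting freely
-/

set_option autoImplicit false

namespace Pool.Agent.R573.TA

open Pool.Agent.H40R2.Zd Pool.Agent.Y110.FJ
open Pool.Agent.Y462.SS (Closed)

/-- If `G` acts on a tree, the normal subgroup `N` acts freely and without inversions and `G ⧸ N` is in
the class `C`, then `G` is in `C`. -/
theorem tree_ext (hperm : S_PERM) (C : ∀ (G : Type) [Group G], Prop) (hC : ClosedE C)
    {G V : Type} [Group G] [MulAction G V] (T : SimpleGraph V) (hT : T.IsTree)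
    (hadj : ∀ (g : G) (u v : V), T.Adj u v → T.Adj (g • u) (g • v)) (N : Subgroup G) [N.Normal]
    (hfree : ∀ g ∈ N, ∀ v : V, g • v = v → g = 1)
    (hinv : ∀ g ∈ N, ∀ u v : V, T.Adj u v → ¬ (g • u = v ∧ g • v = u))
    (hQ : C (G ⧸ N)) : C G := by
  classical
  -- the action of `G` on the set of the letters
  have hwd : ∀ (g : G) (p q : V × V), (dSetoid ↥N V).r p q →
      (dSetoid ↥N V).r (g • p.1, g • p.2) (g • q.1, g • q.2) := by
    rintro g p q ⟨n, h1, h2⟩
    refine ⟨⟨g * n * g⁻¹, Subgroup.Normal.conj_mem inferInstance _ n.2 g⟩, ?_, ?_⟩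
    · show (g * n * g⁻¹) • g • p.1 = g • q.1
      rw [mul_smul, inv_smul_smul, mul_smul]
      exact congrArg _ h1
    · show (g * n * g⁻¹) • g • p.2 = g • q.2
      rw [mul_smul, inv_smul_smul, mul_smul]
      exact congrArg _ h2
  let act : G → PD ↥N V → PD ↥N V := fun g =>
    Quotient.map (fun p : V × V => (g • p.1, g • p.2)) (fun p q h => hwd g p q h)
  have hact : ∀ (g : G) (u v : V), act g (dmk ↥N u v) = dmk ↥N (g • u) (g • v) := fun _ _ _ => rfl
  have hind : ∀ (P : PD ↥N V → Prop), (∀ u v, P (dmk ↥N u v)) → ∀ x, P x := by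
    intro P h x
    induction x using Quotient.ind with
    | _ p => exact h p.1 p.2
  have hact1 : ∀ x, act 1 x = x := hind _ fun u v => by rw [hact, one_smul, one_smul]
  have hact2 : ∀ g g' x, act (g * g') x = act g (act g' x) := fun g g' =>
    hind _ fun u v => by rw [hact, hact, hact, mul_smul, mul_smul]
  let actG : G →* Equiv.Perm (PD ↥N V) :=
    { toFun := fun g =>
        { toFun := act g
          invFun := act g⁻¹
          left_inv := hind _ fun u v => by rw [hact, hact, inv_smul_smul, inv_smul_smul]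
          right_inv := hind _ fun u v => by rw [hact, hact, smul_inv_smul, smul_inv_smul] }
      map_one' := Equiv.ext hact1
      map_mul' := fun g g' => Equiv.ext (hact2 g g') }
  have hker : ∀ n ∈ N, actG n = 1 := by
    intro n hn
    apply Equiv.ext
    refine hind (fun x => actG n x = (1 : Equiv.Perm (PD ↥N V)) x) fun u v => ?_
    show dmk ↥N (n • u) (n • v) = dmk ↥N u v
    exact dmk_smul (N := ↥N) ⟨n, hn⟩ u v
  let actQ : G ⧸ N →* Equiv.Perm (PD ↥N V) := QuotientGroup.lift N actG hker
  let _i : MulAction (G ⧸ N) (PD ↥N V) := MulAction.compHom _ actQ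
  have hQact : ∀ (g : G) (x : PD ↥N V), (QuotientGroup.mk' N g) • x = actG g x := fun _ _ => rfl
  have main : C (FreeGroup (PD ↥N V) ⋊[permAut (PD ↥N V) (G ⧸ N)] (G ⧸ N)) :=
    hperm C hC (PD ↥N V) (G ⧸ N) hQ
  obtain ⟨v0⟩ := hT.connected.nonempty
  have hw : ∀ u : V, Nonempty (T.Walk v0 u) := fun u => hT.connected.preconnected v0 u
  let w0 : ∀ u : V, T.Walk v0 u := fun u => Classical.choice (hw u)
  let c : V → FreeGroup (PD ↥N V) := fun u => wt ↥N T (w0 u)
  have hc : ∀ (u : V) (p : T.Walk v0 u), c u = wt ↥N T p := fun u p => wt_eq hT _ _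
  let A := permAut (PD ↥N V) (G ⧸ N)
  have hA : ∀ (g : G) (u v : V), A (QuotientGroup.mk' N g) (FreeGroup.of (dmk ↥N u v)) =
      FreeGroup.of (dmk ↥N (g • u) (g • v)) := by
    intro g u v
    show FreeGroup.freeGroupCongr _ (FreeGroup.of _) = _
    rw [FreeGroup.freeGroupCongr_apply, FreeGroup.map.of]
    rfl
  have hmap : ∀ (g : G) {u v : V} (p : T.Walk u v),
      wt ↥N T (p.map (⟨fun x => g • x, fun {a b} h => hadj g a b h⟩ : T →g T)) =
        A (QuotientGroup.mk' N g) (wt ↥N T p) := by
    intro g u v p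
    induction p with
    | nil =>
      rw [wt_nil, map_one]
      rfl
    | @cons a b d h p ih =>
      rw [SimpleGraph.Walk.map_cons, wt_cons, wt_cons, ih, map_mul, map_mul, map_inv, hA, hA]
      rfl
  let Φ : G →* FreeGroup (PD ↥N V) ⋊[permAut (PD ↥N V) (G ⧸ N)] (G ⧸ N) :=
    MonoidHom.mk' (fun g => ⟨c (g • v0), QuotientGroup.mk' N g⟩) (by
      intro g g'
      apply SemidirectProduct.ext
      · show c ((g * g') • v0) = c (g • v0) * A (QuotientGroup.mk' N g) (c (g' • v0))
        rw [mul_smul, hc (g • g' • v0) ((w0 (g • v0)).append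
          ((w0 (g' • v0)).map (⟨fun x => g • x, fun {a b} h => hadj g a b h⟩ : T →g T))),
          wt_append, hmap]
      · exact map_mul _ _ _)
  refine hC.base.of_injective _ _ Φ ?_ main
  rw [injective_iff_map_eq_one]
  intro g hg
  have h1 : c (g • v0) = 1 := congrArg SemidirectProduct.left hg
  have h2 : QuotientGroup.mk' N g = 1 := congrArg SemidirectProduct.right hg
  have h3 : g ∈ N := (QuotientGroup.eq_one_iff g).1 h2
  have h4 : v0 = g • v0 := by
    apply eq_of_wt_one (N := ↥N) (fun γ v h => Subtype.ext (hfree γ γ.2 v h))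
      (fun γ u v h => hinv γ γ.2 u v h) (w0 (g • v0)).bypass (w0 (g • v0)).bypass_isPath
    rw [← hc]
    exact h1
  exact hfree g h3 v0 h4.symm

end Pool.Agent.R573.TA
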