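import Pool.Agent.R573.TA.Hom
import Pool.Agent.R573.TA.FC
import Pool.Agent.R573.TA.Div
import Pool.Agent.R573.TA.Tree

/-!
# Actions on trees with commensurable stabilizers
-/

set_option autoImplicit false

namespace Pool.Agent.R573.TA

open Pool.Agent.Y110.FJ Subgroup
open Pool.Agent.Y462.SS (Closed)
open scoped commutatorElement

section action

variable {G V : Type} [Group G] [MulAction G V]

/-- If all elements of the normal subgroup `K` centralize finite index subgroups of the stabilizers,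
then the commutator subgroup of `K` acts freely. -/
theorem commutator_free (T : SimpleGraph V) (hT : T.IsTree)
    (hadj : ∀ (g : G) (u v : V), T.Adj u v → T.Adj (g • u) (g • v))
    (hinv : ∀ (g : G) (u v : V), T.Adj u v → ¬ (g • u = v ∧ g • v = u))
    (hcom : ∀ u v : V, (MulAction.stabilizer G u).relIndex (MulAction.stabilizer G v) ≠ 0)
    (hfin : ∀ (v : V) (F : Subgroup ↥(MulAction.stabilizer G v)), F.Normal → Finite F → F = ⊥)
    (K : Subgroup G) [K.Normal]
    (hK : ∀ g ∈ K, ∃ v : V, (centralizer ({g} : Set G)).relIndex (MulAction.stabilizer G v) ≠ 0) :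
    ∀ g ∈ ⁅K, K⁆, ∀ v : V, g • v = v → g = 1 := by
  classical
  obtain ⟨v0⟩ := hT.connected.nonempty
  have hcv : ∀ g ∈ K, ∀ v : V,
      (centralizer ({g} : Set G)).relIndex (MulAction.stabilizer G v) ≠ 0 := by
    intro g hg v
    obtain ⟨u, hu⟩ := hK g hg
    exact relIndex_ne_zero_trans
      (K := MulAction.stabilizer G u ⊓ MulAction.stabilizer G v)
      (relIndex_anti_ne inf_le_left hu) (by
        rw [inf_relIndex_right]
        exact hcom u v)
  have htf : ∀ (v : V) (z : G), z ∈ MulAction.stabilizer G v →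
      (centralizer ({z} : Set G)).relIndex (MulAction.stabilizer G v) ≠ 0 →
      ∀ n : ℕ, 0 < n → z ^ n = 1 → z = 1 := by
    intro v z hz hc n hn h
    have h1 := torsion_free (hfin v) ⟨z, hz⟩ (by
      intro h0
      apply hc
      have h2 : (centralizer ({z} : Set G)).subgroupOf (MulAction.stabilizer G v) ≤
          centralizer ({(⟨z, hz⟩ : ↥(MulAction.stabilizer G v))} : Set _) := by
        intro y hy
        rw [mem_centralizer_iff]
        rintro _ rfl
        exact Subtype.ext (mem_centralizer_iff.1 hy z rfl)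
      exact Nat.eq_zero_of_zero_dvd (h0 ▸ index_dvd_of_le h2)) n hn (Subtype.ext h)
    exact congrArg Subtype.val h1
  have hcomm : ∀ (v : V) (x y : G), x ∈ K → y ∈ K → x • v = v → y • v = v → x * y = y * x := by
    intro v x y hx hy hxv hyv
    exact comm_of_fc (S := MulAction.stabilizer G v) hxv hyv (hcv x hx v) (hcv y hy v)
      (fun z hz h => htf v z hz h)
  let B : Subgroup ↥K := (MulAction.stabilizer G v0).subgroupOf K
  have hBmem : ∀ x : ↥K, x ∈ B ↔ (x : G) • v0 = v0 := fun x => Iff.rfl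
  obtain ⟨E, _, L, hL1, hL2, hL3⟩ := exists_div B (by
    intro x hx y hy
    exact Subtype.ext (hcomm v0 x y x.2 y.2 hx hy))
  have hell : ∀ (x : ↥K) (v : V), x • v = v → ∃ n : ℕ, 0 < n ∧ x ^ n ∈ B := by
    intro x v hx
    obtain ⟨n, hn, h⟩ := exists_pow_mem' (hcom v0 v) (a := (x : G)) hx
    exact ⟨n, hn, h⟩
  obtain ⟨h, hh1, hh2⟩ := exists_hom (K := ↥K) T hT (fun γ u v => hadj γ u v)
    (fun γ u v => hinv γ u v) L (by
      intro v x y hx hy
      exact hL1 x y (Subtype.ext (hcomm v x y x.2 y.2 hx hy)) (hell x v hx) (hell y v hy)) (by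
      intro k x v hx
      symm
      obtain ⟨n, hn, hB⟩ := hell x v hx
      apply hL2 _ _ ⟨n, hn, hB⟩
      obtain ⟨m, hm, h1⟩ := exists_pow_mem' (hcv k k.2 v0) (a := ((x : G) ^ n)) hB
      refine ⟨n * m, Nat.mul_pos hn hm, ?_⟩
      apply Subtype.ext
      have h2 : (k : G) * ((x : G) ^ n) ^ m = ((x : G) ^ n) ^ m * k :=
        mem_centralizer_iff.1 h1 k rfl
      show (x : G) ^ (n * m) = ((k : G) * x * (k : G)⁻¹) ^ (n * m)
      rw [show (k : G) * x * (k : G)⁻¹ = MulAut.conj (k : G) (x : G) from rfl, ← map_pow,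
        MulAut.conj_apply, pow_mul, h2, mul_inv_cancel_right])
  have hh0 : h 1 = 0 := by
    have := hh1 1 1
    rw [mul_one] at this
    exact left_eq_add.1 this
  let H0 : Subgroup ↥K :=
    { carrier := {x | h x = 0}
      one_mem' := hh0
      mul_mem' := by
        intro a b ha hb
        show h (a * b) = 0
        rw [hh1, show h a = 0 from ha, show h b = 0 from hb, add_zero]
      inv_mem' := by
        intro a ha
        show h a⁻¹ = 0
        have h1 := hh1 a a⁻¹
        rw [mul_inv_cancel, hh0, show h a = 0 from ha, zero_add] at h1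
        exact h1.symm }
  have hN : ⁅K, K⁆ ≤ H0.map K.subtype := by
    rw [commutator_le]
    intro a ha b hb
    refine ⟨⁅(⟨a, ha⟩ : ↥K), ⟨b, hb⟩⁆, ?_, rfl⟩
    show h _ = 0
    have hinv' : ∀ x : ↥K, h x⁻¹ = - h x := by
      intro x
      have h1 := hh1 x x⁻¹
      rw [mul_inv_cancel, hh0] at h1
      exact (neg_eq_of_add_eq_zero_right h1.symm).symm
    rw [commutatorElement_def, hh1, hh1, hh1, hinv', hinv']
    abel
  intro g hg v hgv
  obtain ⟨x, hx, rfl⟩ := hN hg
  have h1 : h x = 0 := hx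
  rw [hh2 x v hgv] at h1
  obtain ⟨n, hn, h2⟩ := hL3 x (hell x v hgv) h1
  exact htf v x hgv (hcv x x.2 v) n hn (congrArg Subtype.val h2)

end action

/-- extensions with abelian kernels -/
theorem abelian_kernel (hext : S_EXT) (C : ∀ (G : Type) [Group G], Prop) (hC : ClosedE C)
    (hab : ∀ (M : Type) [Group M] (A : Subgroup M) [A.Normal],
      (∀ x ∈ A, ∀ y ∈ A, x * y = y * x) → IsCyclic (M ⧸ A) → C M)
    {G : Type} [Group G] (N : Subgroup G) [N.Normal] (hN : ∀ x ∈ N, ∀ y ∈ N, x * y = y * x)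
    (hQ : C (G ⧸ N)) : C G := by
  apply hext C hC G N _ hQ
  · intro g _
    set M : Subgroup G := N ⊔ zpowers g with hM
    have hNM : N ≤ M := le_sup_left
    have hg : g ∈ M := (le_sup_right : zpowers g ≤ M) (mem_zpowers g)
    refine hab ↥M (N.subgroupOf M) ?_ ?_
    · intro x hx y hy
      exact Subtype.ext (hN x hx y hy)
    · refine ⟨QuotientGroup.mk ⟨g, hg⟩, ?_⟩
      intro q
      induction q using QuotientGroup.induction_on with
      | H z =>
        obtain ⟨a, ha, b, hb, hab'⟩ := (mem_sup_of_normal_left (s := N)).1 z.2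
        obtain ⟨n, rfl⟩ := mem_zpowers_iff.1 hb
        refine ⟨n, ?_⟩
        show (QuotientGroup.mk ⟨g, hg⟩ : ↥M ⧸ N.subgroupOf M) ^ n = QuotientGroup.mk z
        rw [← QuotientGroup.mk_zpow, QuotientGroup.eq, mem_subgroupOf]
        have e : ((((⟨g, hg⟩ : ↥M) ^ n)⁻¹ * z : ↥M) : G) = (g ^ n)⁻¹ * a * ((g ^ n)⁻¹)⁻¹ := by
          rw [inv_inv, mul_assoc, hab']
          rfl
        rw [e]
        exact (inferInstance : N.Normal).conj_mem a ha (g ^ n)⁻¹
  · refine hab ↥N ⊤ (fun x _ y _ => Subtype.ext (hN x x.2 y y.2)) ?_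
    have : Subsingleton (↥N ⧸ (⊤ : Subgroup ↥N)) := QuotientGroup.subsingleton_quotient_top
    exact isCyclic_of_subsingleton

/-- **Main theorem.** -/
theorem main (hperm : S_PERM) (hext : S_EXT) (C : ∀ (G : Type) [Group G], Prop) (hC : ClosedE C)
    (hab : ∀ (M : Type) [Group M] (A : Subgroup M) [A.Normal],
      (∀ x ∈ A, ∀ y ∈ A, x * y = y * x) → IsCyclic (M ⧸ A) → C M)
    {G V Q : Type} [Group G] [Group Q] [MulAction G V] (T : SimpleGraph V) (hT : T.IsTree)
    (hadj : ∀ (g : G) (u v : V), T.Adj u v → T.Adj (g • u) (g • v))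
    (hinv : ∀ (g : G) (u v : V), T.Adj u v → ¬ (g • u = v ∧ g • v = u))
    (hcom : ∀ u v : V, (MulAction.stabilizer G u).relIndex (MulAction.stabilizer G v) ≠ 0)
    (hfin : ∀ (v : V) (F : Subgroup ↥(MulAction.stabilizer G v)), F.Normal → Finite F → F = ⊥)
    (f : G →* Q) (hQ : C Q)
    (hf : ∀ g, f g = 1 →
      ∃ v : V, (centralizer ({g} : Set G)).relIndex (MulAction.stabilizer G v) ≠ 0) : C G := by
  classical
  have hfree := commutator_free T hT hadj hinv hcom hfin f.ker (fun g hg => hf g hg)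
  refine tree_ext hperm C hC T hT hadj ⁅f.ker, f.ker⁆ hfree (fun g _ => hinv g) ?_
  set N : Subgroup G := ⁅f.ker, f.ker⁆ with hN
  have hNK : N ≤ f.ker := commutator_le_left _ _
  let F : G ⧸ N →* Q := QuotientGroup.lift N f hNK
  have hF : ∀ x ∈ F.ker, ∃ g ∈ f.ker, QuotientGroup.mk' N g = x := by
    intro x hx
    obtain ⟨g, rfl⟩ := QuotientGroup.mk'_surjective N x
    exact ⟨g, hx, rfl⟩
  refine abelian_kernel hext C hC hab F.ker ?_ ?_
  · intro x hx y hy
    obtain ⟨a, ha, rfl⟩ := hF x hx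
    obtain ⟨b, hb, rfl⟩ := hF y hy
    rw [← map_mul, ← map_mul]
    apply QuotientGroup.eq.2
    have : ⁅b⁻¹, a⁻¹⁆ ∈ N := commutator_mem_commutator (f.ker.inv_mem hb) (f.ker.inv_mem ha)
    rw [commutatorElement_def] at this
    rw [mul_inv_rev]
    simpa [mul_assoc] using this
  · exact hC.base.of_injective _ _ (QuotientGroup.kerLift F) (QuotientGroup.kerLift_injective F) hQ

end Pool.Agent.R573.TA
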